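import Mathlib

/-!
# Finitely generated fiber products of two free semigroups are finitely presented

Let `S` be a fiber product of two free semigroups, generated by a finite set `X` of pairs of words of
length at most `L`. Lengths of the two coordinates of an element of `S` are then comparable, and the
fiber quotient has no nontrivial solutions of `z = z y` and `z = y z`. From these facts we show
(lemma `edge`): if two lists over `X` have the same long product, then an initial part of the second
list has a product of length at most `9 L ^ 3` that begins, inside `S`, with the first element of the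
first list. By induction on the length, all relations of `S` follow from the relations `x y = z`
between elements of length at most `9 L ^ 3`.
-/

set_option autoImplicit false

namespace Pool.Agent.Results.MP_c47b4a_al.FiberProductsFP

/-! ### Definitions -/

/-- The fiber product of two free semigroups over `f` and `g`. -/
def fiberProduct {A B Q : Type*} [Semigroup Q] (f : FreeSemigroup A →ₙ* Q)
    (g : FreeSemigroup B →ₙ* Q) : Subsemigroup (FreeSemigroup A × FreeSemigroup B) where
  carrier := {w | f w.1 = g w.2}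
  mul_mem' := by
    intro a b ha hb
    simp only [Set.mem_ofPred_eq, Prod.fst_mul, Prod.snd_mul, map_mul] at *
    rw [ha, hb]

/-- `S` is finitely generated as a semigroup. -/
def IsFinitelyGenerated (S : Type*) [Semigroup S] : Prop :=
  ∃ X : Set S, X.Finite ∧ Subsemigroup.closure X = ⊤

/-- `S` is finitely presented as a semigroup. -/
def IsFinitelyPresented (S : Type*) [Semigroup S] : Prop :=
  ∃ (n : ℕ) (R : Set (FreeSemigroup (Fin n) × FreeSemigroup (Fin n))), R.Finite ∧
    Nonempty ((conGen fun a b => (a, b) ∈ R).Quotient ≃* S)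

/-! ### Splitting lists -/

theorem split1 {α β : Type*} (c : α → List β) (L : ℕ) (p : List α)
    (hp : ∀ x ∈ p, (c x).length ≤ L) (n : ℕ) (hn : n ≤ (p.flatMap c).length) :
    ∃ p1 p2, p = p1 ++ p2 ∧ n ≤ (p1.flatMap c).length ∧ (p1.flatMap c).length ≤ n + L := by
  induction p generalizing n with
  | nil =>
    refine ⟨[], [], rfl, ?_, ?_⟩
    · simpa using hn
    · simp
  | cons x p ih =>
    have hx := hp x (by simp)
    have hp' : ∀ y ∈ p, (c y).length ≤ L := fun y hy => hp y (by simp [hy])
    rw [List.flatMap_cons, List.length_append] at hn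
    by_cases h0 : n ≤ (c x).length
    · refine ⟨[x], p, rfl, ?_, ?_⟩
      · simpa using h0
      · simp only [List.flatMap_cons, List.flatMap_nil, List.append_nil]; omega
    · obtain ⟨p1, p2, h1, h2, h3⟩ := ih hp' (n - (c x).length) (by omega)
      refine ⟨x :: p1, p2, by rw [h1]; rfl, ?_, ?_⟩
      · rw [List.flatMap_cons, List.length_append]; omega
      · rw [List.flatMap_cons, List.length_append]; omega

theorem split2 {α β : Type*} (c : α → List β) (L : ℕ) (p : List α)
    (hp : ∀ x ∈ p, (c x).length ≤ L) (n : ℕ) (hn : n ≤ (p.flatMap c).length) :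
    ∃ p1 p2, p = p1 ++ p2 ∧ (p1.flatMap c).length ≤ n ∧ n ≤ (p1.flatMap c).length + L := by
  induction p generalizing n with
  | nil =>
    refine ⟨[], [], rfl, ?_, ?_⟩
    · simp
    · simp only [List.flatMap_nil, List.length_nil] at hn ⊢; omega
  | cons x p ih =>
    have hx := hp x (by simp)
    have hp' : ∀ y ∈ p, (c y).length ≤ L := fun y hy => hp y (by simp [hy])
    rw [List.flatMap_cons, List.length_append] at hn
    by_cases h0 : n < (c x).length
    · refine ⟨[], x :: p, rfl, ?_, ?_⟩
      · simp
      · simp only [List.flatMap_nil, List.length_nil]; omega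
    · obtain ⟨p1, p2, h1, h2, h3⟩ := ih hp' (n - (c x).length) (by omega)
      refine ⟨x :: p1, p2, by rw [h1]; rfl, ?_, ?_⟩
      · rw [List.flatMap_cons, List.length_append]; omega
      · rw [List.flatMap_cons, List.length_append]; omega

/-! ### The setting -/

/-- A list of pairs, read as a product: first coordinate. -/
def fu {A B : Type*} (p : List (List A × List B)) : List A := p.flatMap Prod.fst

/-- A list of pairs, read as a product: second coordinate. -/
def fv {A B : Type*} (p : List (List A × List B)) : List B := p.flatMap Prod.snd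

section fufv

variable {A B : Type*}

@[simp] theorem fu_nil : fu ([] : List (List A × List B)) = [] := rfl
@[simp] theorem fv_nil : fv ([] : List (List A × List B)) = [] := rfl
@[simp] theorem fu_cons (x : List A × List B) (p) : fu (x :: p) = x.1 ++ fu p := rfl
@[simp] theorem fv_cons (x : List A × List B) (p) : fv (x :: p) = x.2 ++ fv p := rfl
@[simp] theorem fu_append (p q : List (List A × List B)) : fu (p ++ q) = fu p ++ fu q :=
  List.flatMap_append
@[simp] theorem fv_append (p q : List (List A × List B)) : fv (p ++ q) = fv p ++ fv q :=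
  List.flatMap_append

end fufv

/-- The data of the argument: `F` and `G` are homomorphisms from the free monoids to a monoid, the
pairs with the same image are the products of lists over `X`, and the coordinates of the elements
of `X` have lengths between `1` and `L`. -/
structure Data {A B M : Type*} [Monoid M] (F : List A → M) (G : List B → M)
    (X : Set (List A × List B)) (L : ℕ) (σ : List A → List B) (τ : List B → List A) : Prop where
  hF : ∀ a b, F (a ++ b) = F a * F b
  hG : ∀ a b, G (a ++ b) = G a * G b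
  hF1 : F [] = 1
  hG1 : G [] = 1
  mem : ∀ x ∈ X, F x.1 = G x.2
  p1 : ∀ x ∈ X, 1 ≤ x.1.length
  p2 : ∀ x ∈ X, 1 ≤ x.2.length
  l1 : ∀ x ∈ X, x.1.length ≤ L
  l2 : ∀ x ∈ X, x.2.length ≤ L
  gen : ∀ u v, F u = G v → ∃ p : List (List A × List B), (∀ x ∈ p, x ∈ X) ∧ fu p = u ∧ fv p = v
  hσ : ∀ a b, σ (a ++ b) = σ a ++ σ b
  hτ : ∀ a b, τ (a ++ b) = τ a ++ τ b
  Gσ : ∀ u, G (σ u) = F u
  Fτ : ∀ v, F (τ v) = G v

section Main

variable {A B M : Type*} [Monoid M] {F : List A → M} {G : List B → M}
    {X : Set (List A × List B)} {L : ℕ} {σ : List A → List B} {τ : List B → List A}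

theorem F_fu (D : Data F G X L σ τ) (p : List (List A × List B)) (hp : ∀ x ∈ p, x ∈ X) :
    F (fu p) = G (fv p) := by
  induction p with
  | nil => simp [D.hF1, D.hG1]
  | cons x p ih =>
    rw [fu_cons, fv_cons, D.hF, D.hG, D.mem x (hp x (by simp)), ih fun y hy => hp y (by simp [hy])]

theorem len_fu_le (D : Data F G X L σ τ) (p : List (List A × List B)) (hp : ∀ x ∈ p, x ∈ X) :
    (fu p).length ≤ L * p.length ∧ p.length ≤ (fu p).length ∧
    (fv p).length ≤ L * p.length ∧ p.length ≤ (fv p).length := by
  induction p with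
  | nil => simp
  | cons x p ih =>
    have h := ih fun y hy => hp y (by simp [hy])
    have h1 := D.p1 x (hp x (by simp))
    have h2 := D.p2 x (hp x (by simp))
    have h3 := D.l1 x (hp x (by simp))
    have h4 := D.l2 x (hp x (by simp))
    simp only [fu_cons, fv_cons, List.length_append, List.length_cons, Nat.mul_add, Nat.mul_one]
    omega

/-- length bounds for the elements of the fiber product -/
theorem len_le (D : Data F G X L σ τ) (u : List A) (v : List B) (h : F u = G v) :
    u.length ≤ L * v.length ∧ v.length ≤ L * u.length := by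
  obtain ⟨p, hp, rfl, rfl⟩ := D.gen u v h
  obtain ⟨h1, h2, h3, h4⟩ := len_fu_le D p hp
  exact ⟨h1.trans (Nat.mul_le_mul_left _ h4), h3.trans (Nat.mul_le_mul_left _ h2)⟩

theorem iter_right {C : Type*} (H : List C → M) (hH : ∀ a b, H (a ++ b) = H a * H b)
    (z y : List C) (h : H z = H (z ++ y)) (n : ℕ) :
    H (z ++ (List.replicate n y).flatten) = H z := by
  induction n with
  | zero => simp
  | succ n ih =>
    rw [List.replicate_succ, List.flatten_cons, ← List.append_assoc, hH, ← h, ← hH, ih]

theorem iter_left {C : Type*} (H : List C → M) (hH : ∀ a b, H (a ++ b) = H a * H b)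
    (z y : List C) (h : H z = H (y ++ z)) (n : ℕ) :
    H ((List.replicate n y).flatten ++ z) = H z := by
  induction n with
  | zero => simp
  | succ n ih =>
    rw [List.replicate_succ, List.flatten_cons, List.append_assoc, hH, ih, ← hH, ← h]

/-- cancellation of a suffix -/
theorem G_right (D : Data F G X L σ τ) (z y : List B) (h : G z = G (z ++ y)) : y = [] := by
  by_contra hy
  have hy1 : 1 ≤ y.length := List.length_pos_iff.2 hy
  have h1 := iter_right G D.hG z y h (L * (τ z).length + 1)
  have h2 := (len_le D (τ z) _ ((D.Fτ z).trans h1.symm)).2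
  rw [List.length_append, List.length_flatten, List.map_replicate, List.sum_replicate,
    smul_eq_mul] at h2
  have h3 : (L * (τ z).length + 1) * 1 ≤ (L * (τ z).length + 1) * y.length :=
    Nat.mul_le_mul_left _ hy1
  omega

/-- cancellation of an initial factor -/
theorem F_left (D : Data F G X L σ τ) (z y : List A) (h : F z = F (y ++ z)) : y = [] := by
  by_contra hy
  have hy1 : 1 ≤ y.length := List.length_pos_iff.2 hy
  have h1 := iter_left F D.hF z y h (L * (σ z).length + 1)
  have h2 := (len_le D _ (σ z) (h1.trans (D.Gσ z).symm)).1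
  rw [List.length_append, List.length_flatten, List.map_replicate, List.sum_replicate,
    smul_eq_mul] at h2
  have h3 : (L * (σ z).length + 1) * 1 ≤ (L * (σ z).length + 1) * y.length :=
    Nat.mul_le_mul_left _ hy1
  omega

/-- two initial factors of one word with the same image are equal -/
theorem G_initial (D : Data F G X L σ τ) (a b c d : List B) (h : a ++ b = c ++ d)
    (hG : G a = G c) : a = c ∧ b = d := by
  rcases List.append_eq_append_iff.1 h with ⟨e, h1, h2⟩ | ⟨e, h1, h2⟩
  · rw [h1] at hG
    have := G_right D a e hG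
    subst this
    simp only [List.append_nil] at h1
    simp only [List.nil_append] at h2
    exact ⟨h1.symm, h2⟩
  · rw [h1] at hG
    have := G_right D c e hG.symm
    subst this
    simp only [List.append_nil] at h1
    simp only [List.nil_append] at h2
    exact ⟨h1, h2.symm⟩

/-- two final factors of one word with the same image are equal -/
theorem F_final (D : Data F G X L σ τ) (a b c d : List A) (h : a ++ b = c ++ d)
    (hF : F b = F d) : a = c ∧ b = d := by
  rcases List.append_eq_append_iff.1 h with ⟨e, h1, h2⟩ | ⟨e, h1, h2⟩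
  · rw [h2] at hF
    have := F_left D d e hF.symm
    subst this
    simp only [List.append_nil] at h1
    simp only [List.nil_append] at h2
    exact ⟨h1.symm, h2⟩
  · rw [h2] at hF
    have := F_left D b e hF
    subst this
    simp only [List.append_nil] at h1
    simp only [List.nil_append] at h2
    exact ⟨h1, h2.symm⟩

/-- The main step: if the lists `x :: p` and `p'` have the same long product, then an initial part
of `p'` has a short product that is `x` times an element of the fiber product. -/
theorem edge (D : Data F G X L σ τ) (x : List A × List B) (p p' : List (List A × List B))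
    (hx : x ∈ X) (hp : ∀ y ∈ p, y ∈ X) (hp' : ∀ y ∈ p', y ∈ X)
    (hu : fu (x :: p) = fu p') (hv : fv (x :: p) = fv p') (hlong : 2 * L ≤ (fu (x :: p)).length) :
    ∃ pa pb e1 e2, p' = pa ++ pb ∧ F e1 = G e2 ∧ fu pa = x.1 ++ e1 ∧ fv pa = x.2 ++ e2 ∧
      (fu pa).length ≤ 9 * L ^ 3 ∧ (fv pa).length ≤ 9 * L ^ 3 := by
  have hL : 1 ≤ L := (D.p1 x hx).trans (D.l1 x hx)
  have hxp : ∀ y ∈ x :: p, y ∈ X := by
    intro y hy
    rcases List.mem_cons.1 hy with rfl | hy
    · exact hx
    · exact hp y hy
  -- split `x :: p`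
  obtain ⟨p1, b, hs1, hs2, hs3⟩ := split1 Prod.fst L (x :: p) (fun y hy => D.l1 y (hxp y hy))
    (2 * L) hlong
  change 2 * L ≤ (fu p1).length at hs2
  change (fu p1).length ≤ 2 * L + L at hs3
  obtain ⟨a, rfl⟩ : ∃ a, p1 = x :: a := by
    cases p1 with
    | nil => simp at hs2; omega
    | cons y a =>
      rw [List.cons_append] at hs1
      obtain ⟨rfl, -⟩ := List.cons.inj hs1
      exact ⟨a, rfl⟩
  have ha : ∀ y ∈ a, y ∈ X := fun y hy => hxp y (by rw [hs1]; simp [hy])
  have hxa : ∀ y ∈ x :: a, y ∈ X := fun y hy => hxp y (by rw [hs1]; exact List.mem_append_left _ hy)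
  have hb : ∀ y ∈ b, y ∈ X := fun y hy => hxp y (by rw [hs1]; exact List.mem_append_right _ hy)
  have hu12 : fu (x :: p) = fu (x :: a) ++ fu b := by rw [hs1, fu_append]
  have hv12 : fv (x :: p) = fv (x :: a) ++ fv b := by rw [hs1, fv_append]
  generalize hu1 : fu (x :: a) = u1 at *
  generalize hv1 : fv (x :: a) = v1 at *
  generalize hu2 : fu b = u2 at *
  generalize hv2 : fv b = v2 at *
  have hT1 : F u1 = G v1 := by rw [← hu1, ← hv1]; exact F_fu D _ hxa
  have hT2 : F u2 = G v2 := by rw [← hu2, ← hv2]; exact F_fu D _ hb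
  -- split `p'`
  obtain ⟨c, d, hc1, hc2, hc3⟩ := split1 Prod.fst L p' (fun y hy => D.l1 y (hp' y hy))
    u1.length (by change u1.length ≤ (fu p').length; rw [← hu, hu12, List.length_append]; omega)
  change u1.length ≤ (fu c).length at hc2
  change (fu c).length ≤ u1.length + L at hc3
  subst hc1
  have hc : ∀ y ∈ c, y ∈ X := fun y hy => hp' y (by simp [hy])
  have hd : ∀ y ∈ d, y ∈ X := fun y hy => hp' y (by simp [hy])
  have hT3 : F (fu c) = G (fv c) := F_fu D _ hc
  have hT4 : F (fu d) = G (fv d) := F_fu D _ hd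
  rw [fu_append, hu12] at hu
  rw [fv_append, hv12] at hv
  -- `fu c = u1 ++ e0`
  obtain ⟨e0, he0, he0'⟩ : ∃ e0, fu c = u1 ++ e0 ∧ u2 = e0 ++ fu d := by
    rcases List.append_eq_append_iff.1 hu with ⟨e, h1, h2⟩ | ⟨e, h1, h2⟩
    · exact ⟨e, h1, h2⟩
    · have h3 : e = [] := by
        rw [← List.length_eq_zero_iff]
        have := congrArg List.length h1
        rw [List.length_append] at this
        omega
      subst h3
      simp only [List.append_nil, List.nil_append] at h1 h2
      exact ⟨[], by simp [h1], by simp [h2]⟩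
  -- the overlap in the second coordinate
  obtain ⟨D1, D2, vs, hD1, hD2, hD3, hD4, hD5⟩ : ∃ D1 D2 vs, v2 = D1 ++ vs ∧ fv d = D2 ++ vs ∧
      v1 ++ D1 = fv c ++ D2 ∧ D1.length ≤ (fv c).length ∧ D2.length ≤ v1.length := by
    rcases List.append_eq_append_iff.1 hv with ⟨e, h1, h2⟩ | ⟨e, h1, h2⟩
    · refine ⟨e, [], fv d, h2, rfl, by simp [h1], ?_, by simp⟩
      rw [h1, List.length_append]; omega
    · refine ⟨[], e, v2, rfl, h2, by simp [h1], by simp, ?_⟩
      rw [h1, List.length_append]; omega
  -- the mixed pair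
  have hmix : F (u1 ++ τ v2) = G (σ (fu c) ++ fv d) := by
    rw [D.hF, D.hG, D.Fτ, D.Gσ, ← hT2, ← hT4, ← D.hF, ← D.hF, hu]
  obtain ⟨q, hq, hqu, hqv⟩ := D.gen _ _ hmix
  obtain ⟨q1, q2, hq1, hq2, hq3⟩ := split2 Prod.fst L q (fun y hy => D.l1 y (hq y hy))
    u1.length (by change u1.length ≤ (fu q).length; rw [hqu, List.length_append]; omega)
  change (fu q1).length ≤ u1.length at hq2
  change u1.length ≤ (fu q1).length + L at hq3
  subst hq1
  have hq1m : ∀ y ∈ q1, y ∈ X := fun y hy => hq y (by simp [hy])
  have hq2m : ∀ y ∈ q2, y ∈ X := fun y hy => hq y (by simp [hy])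
  rw [fu_append] at hqu
  rw [fv_append] at hqv
  obtain ⟨g1, hg1, hg1'⟩ : ∃ g1, u1 = fu q1 ++ g1 ∧ fu q2 = g1 ++ τ v2 := by
    rcases List.append_eq_append_iff.1 hqu with ⟨e, h1, h2⟩ | ⟨e, h1, h2⟩
    · exact ⟨e, h1, h2⟩
    · have h3 : e = [] := by
        rw [← List.length_eq_zero_iff]
        have := congrArg List.length h1
        rw [List.length_append] at this
        omega
      subst h3
      simp only [List.append_nil, List.nil_append] at h1 h2
      exact ⟨[], by simp [h1], by simp [h2]⟩
  -- the second coordinate of `q1`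
  have hfvq1 : fv q1 = σ (fu q1) ∧ fv q2 = σ (g1 ++ e0) ++ fv d := by
    apply G_initial D
    · rw [hqv, he0, hg1, ← List.append_assoc, ← D.hσ, ← List.append_assoc]
    · rw [D.Gσ, F_fu D _ hq1m]
  obtain ⟨-, hfvq2⟩ := hfvq1
  rw [hD2, ← List.append_assoc] at hfvq2
  -- split `q2`
  obtain ⟨q3, q4, hq4, hq5, hq6⟩ := split1 Prod.snd L q2 (fun y hy => D.l2 y (hq2m y hy))
    (σ (g1 ++ e0) ++ D2).length
    (by change _ ≤ (fv q2).length; rw [hfvq2]; simp only [List.length_append]; omega)
  change _ ≤ (fv q3).length at hq5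
  change (fv q3).length ≤ _ at hq6
  subst hq4
  have hq3m : ∀ y ∈ q3, y ∈ X := fun y hy => hq2m y (by simp [hy])
  have hq4m : ∀ y ∈ q4, y ∈ X := fun y hy => hq2m y (by simp [hy])
  rw [fv_append] at hfvq2
  rw [fu_append] at hg1'
  obtain ⟨l, hl1, hl2⟩ : ∃ l, fv q3 = σ (g1 ++ e0) ++ D2 ++ l ∧ vs = l ++ fv q4 := by
    rcases List.append_eq_append_iff.1 hfvq2 with ⟨e, h1, h2⟩ | ⟨e, h1, h2⟩
    · have h3 : e = [] := by
        rw [← List.length_eq_zero_iff]
        have := congrArg List.length h1
        simp only [List.length_append] at this hq5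
        omega
      subst h3
      simp only [List.append_nil, List.nil_append] at h1 h2
      exact ⟨[], by simp [h1], by simp [h2]⟩
    · exact ⟨e, h1, h2⟩
  have hlL : l.length ≤ L := by
    have := congrArg List.length hl1
    simp only [List.length_append] at this hq6
    omega
  -- the first coordinate of `q3`
  have hfuq3 : fu q3 = g1 ++ τ D1 ++ τ l ∧ fu q4 = τ (fv q4) := by
    apply F_final D
    · rw [hg1', hD1, hl2, D.hτ, D.hτ]; simp only [List.append_assoc]
    · rw [D.Fτ, F_fu D _ hq4m]
  have hkey : F g1 * G D1 * G l = F g1 * F e0 * G D2 * G l := by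
    have h1 := F_fu D _ hq3m
    rw [hfuq3.1, hl1, D.hF, D.hF, D.hG, D.hG, D.Fτ, D.Fτ, D.Gσ, D.hF] at h1
    exact h1
  -- split `d`
  have hfvd : fv d = D2 ++ l ++ fv q4 := by rw [hD2, hl2, List.append_assoc]
  obtain ⟨d1, d2, hd1, hd2, hd3⟩ := split1 Prod.snd L d (fun y hy => D.l2 y (hd y hy))
    (D2 ++ l).length
    (by change _ ≤ (fv d).length; rw [hfvd]; simp only [List.length_append]; omega)
  change _ ≤ (fv d1).length at hd2
  change (fv d1).length ≤ _ at hd3
  subst hd1
  have hd1m : ∀ y ∈ d1, y ∈ X := fun y hy => hd y (by simp [hy])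
  have hfvd' := hfvd
  rw [fv_append] at hfvd'
  obtain ⟨m, hm⟩ : ∃ m, fv d1 = D2 ++ l ++ m := by
    rcases List.append_eq_append_iff.1 hfvd' with ⟨e, h1, h2⟩ | ⟨e, h1, h2⟩
    · have h3 : e = [] := by
        rw [← List.length_eq_zero_iff]
        have := congrArg List.length h1
        simp only [List.length_append] at this hd2
        omega
      subst h3
      exact ⟨[], by simpa using h1.symm⟩
    · exact ⟨e, h1⟩
  -- `g1` is a final factor of `fu a`
  obtain ⟨z, hz⟩ : ∃ z, fu a = z ++ g1 := by
    have h1 : x.1 ++ fu a = fu q1 ++ g1 := by rw [← hg1, ← hu1, fu_cons]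
    have h2 := D.l1 x hx
    have h3 : 2 * L ≤ (x.1 ++ fu a).length := by rw [← fu_cons, hu1]; exact hs2
    have h4 : g1.length ≤ L := by
      have := congrArg List.length hg1
      rw [List.length_append] at this
      omega
    rcases List.append_eq_append_iff.1 h1 with ⟨e, h5, h6⟩ | ⟨e, h5, h6⟩
    · exact ⟨e, h6⟩
    · have h7 : e = [] := by
        rw [← List.length_eq_zero_iff]
        have := congrArg List.length h6
        rw [List.length_append] at this h3
        omega
      subst h7
      exact ⟨[], by simpa using h6.symm⟩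
  refine ⟨c ++ d1, d2, fu a ++ e0 ++ fu d1, fv a ++ D1 ++ l ++ m, by simp, ?_, ?_, ?_, ?_, ?_⟩
  · have h1 : F (fu a) = G (fv a) := F_fu D _ ha
    have h2 : F (fu d1) = G (fv d1) := F_fu D _ hd1m
    rw [D.hF, D.hF, D.hG, D.hG, D.hG, h2, hm, D.hG, D.hG, ← h1, hz, D.hF]
    calc F z * F g1 * F e0 * (G D2 * G l * G m)
        = F z * (F g1 * F e0 * G D2 * G l) * G m := by simp only [mul_assoc]
      _ = F z * (F g1 * G D1 * G l) * G m := by rw [hkey]
      _ = F z * F g1 * G D1 * G l * G m := by simp only [mul_assoc]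
  · rw [fu_append, he0, ← hu1, fu_cons]; simp only [List.append_assoc]
  · rw [fv_append, hm]
    calc fv c ++ (D2 ++ l ++ m) = fv c ++ D2 ++ l ++ m := by simp only [List.append_assoc]
      _ = x.2 ++ (fv a ++ D1 ++ l ++ m) := by
        rw [← hD3, ← hv1, fv_cons]; simp only [List.append_assoc]
  all_goals
    have h1 : (fu c).length ≤ 4 * L := by omega
    have h2 : (fv c).length ≤ L * (4 * L) :=
      (len_le D _ _ hT3).2.trans (Nat.mul_le_mul_left _ h1)
    have h3 : v1.length ≤ L * (3 * L) :=
      (len_le D _ _ hT1).2.trans (Nat.mul_le_mul_left _ (by omega))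
    have h4 : (fv d1).length ≤ L * (3 * L) + 2 * L := by
      rw [List.length_append] at hd3; omega
    have h5 : (fu d1).length ≤ L * (L * (3 * L) + 2 * L) :=
      (len_le D _ _ (F_fu D _ hd1m)).1.trans (Nat.mul_le_mul_left _ h4)
    have hL2 : L ≤ L ^ 2 := by nlinarith
    have hL3 : L ^ 2 ≤ L ^ 3 := by nlinarith
  · rw [fu_append, List.length_append]
    have h6 : L * (L * (3 * L) + 2 * L) = 3 * L ^ 3 + 2 * L ^ 2 := by ring
    rw [h6] at h5
    omega
  · rw [fv_append, List.length_append]
    have h6 : L * (3 * L) = 3 * L ^ 2 := by ring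
    have h7 : L * (4 * L) = 4 * L ^ 2 := by ring
    rw [h6] at h4
    rw [h7] at h2
    omega

/-- Step A: a map that is multiplicative on short products takes lists with a short product to
the value at the product. -/
theorem stepA (D : Data F G X L σ τ) {K : Type*} [Monoid K] (N : ℕ) (φ : List A × List B → K)
    (φ1 : φ ([], []) = 1)
    (hφ : ∀ u u' v v', F u = G v → F u' = G v' → (u ++ u').length ≤ N → (v ++ v').length ≤ N →
      φ (u, v) * φ (u', v') = φ (u ++ u', v ++ v'))
    (p : List (List A × List B)) (hp : ∀ x ∈ p, x ∈ X) (h1 : (fu p).length ≤ N)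
    (h2 : (fv p).length ≤ N) : (p.map φ).prod = φ (fu p, fv p) := by
  induction p with
  | nil => simp [φ1]
  | cons x p ih =>
    have hp' : ∀ y ∈ p, y ∈ X := fun y hy => hp y (by simp [hy])
    have h3 := h1
    have h4 := h2
    rw [fu_cons, List.length_append] at h3
    rw [fv_cons, List.length_append] at h4
    rw [List.map_cons, List.prod_cons, ih hp' (by omega) (by omega)]
    exact hφ x.1 _ x.2 _ (D.mem x (hp x (by simp))) (F_fu D p hp') h1 h2

/-- Step B: such a map takes the same value at two lists with the same product. -/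
theorem stepB (D : Data F G X L σ τ) {K : Type*} [Monoid K] (φ : List A × List B → K)
    (φ1 : φ ([], []) = 1)
    (hφ : ∀ u u' v v', F u = G v → F u' = G v' → (u ++ u').length ≤ 9 * L ^ 3 →
      (v ++ v').length ≤ 9 * L ^ 3 → φ (u, v) * φ (u', v') = φ (u ++ u', v ++ v'))
    (n : ℕ) : ∀ (p p' : List (List A × List B)), (fu p).length ≤ n → (∀ x ∈ p, x ∈ X) →
      (∀ x ∈ p', x ∈ X) → fu p = fu p' → fv p = fv p' → (p.map φ).prod = (p'.map φ).prod := by
  induction n with
  | zero =>
    intro p p' hn hp hp' hu hv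
    have h1 : fu p = [] := List.length_eq_zero_iff.1 (by omega)
    have h2 : p = [] := by
      have := (len_fu_le D p hp).2.1
      rw [h1] at this
      exact List.length_eq_zero_iff.1 (by simpa using this)
    have h3 : p' = [] := by
      have := (len_fu_le D p' hp').2.1
      rw [← hu, h1] at this
      exact List.length_eq_zero_iff.1 (by simpa using this)
    rw [h2, h3]
  | succ n ih =>
    intro p p' hn hp hp' hu hv
    cases p with
    | nil =>
      have h3 : p' = [] := by
        have := (len_fu_le D p' hp').2.1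
        rw [← hu] at this
        exact List.length_eq_zero_iff.1 (by simpa using this)
      rw [h3]
    | cons x p =>
      have hx : x ∈ X := hp x (by simp)
      have hp0 : ∀ y ∈ p, y ∈ X := fun y hy => hp y (by simp [hy])
      have hL : 1 ≤ L := (D.p1 x hx).trans (D.l1 x hx)
      have hL2 : L ≤ L ^ 2 := by nlinarith
      have hL3 : L ^ 2 ≤ L ^ 3 := by nlinarith
      by_cases hlong : 2 * L ≤ (fu (x :: p)).length
      · obtain ⟨pa, pb, e1, e2, rfl, he, hua, hva, hl1, hl2⟩ :=
          edge D x p p' hx hp0 hp' hu hv hlong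
        have hpa : ∀ y ∈ pa, y ∈ X := fun y hy => hp' y (by simp [hy])
        have hpb : ∀ y ∈ pb, y ∈ X := fun y hy => hp' y (by simp [hy])
        obtain ⟨ε, hε, hε1, hε2⟩ := D.gen e1 e2 he
        have hel1 : e1.length ≤ 9 * L ^ 3 := by
          rw [hua, List.length_append] at hl1; omega
        have hel2 : e2.length ≤ 9 * L ^ 3 := by
          rw [hva, List.length_append] at hl2; omega
        have h1 : (pa.map φ).prod = φ x * (ε.map φ).prod := by
          rw [stepA D _ φ φ1 hφ pa hpa hl1 hl2, stepA D _ φ φ1 hφ ε hε (by rw [hε1]; exact hel1)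
            (by rw [hε2]; exact hel2), hε1, hε2, hua, hva]
          rw [hua] at hl1
          rw [hva] at hl2
          exact (hφ x.1 e1 x.2 e2 (D.mem x hx) he hl1 hl2).symm
        have h2 : fu p = fu (ε ++ pb) := by
          rw [fu_append, hua, fu_cons, List.append_assoc] at hu
          rw [fu_append, hε1]
          exact List.append_cancel_left hu
        have h3 : fv p = fv (ε ++ pb) := by
          rw [fv_append, hva, fv_cons, List.append_assoc] at hv
          rw [fv_append, hε2]
          exact List.append_cancel_left hv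
        have h4 : (fu p).length ≤ n := by
          have := D.p1 x hx
          rw [fu_cons, List.length_append] at hn
          omega
        have h5 := ih p (ε ++ pb) h4 hp0 (by
          intro y hy
          rcases List.mem_append.1 hy with hy | hy
          · exact hε y hy
          · exact hpb y hy) h2 h3
        rw [List.map_cons, List.prod_cons, h5, List.map_append, List.prod_append,
          List.map_append, List.prod_append, h1, mul_assoc]
      · have h1 : (fv (x :: p)).length ≤ L * (2 * L) :=
          (len_le D _ _ (F_fu D _ hp)).2.trans (Nat.mul_le_mul_left _ (by omega))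
        have h2 : L * (2 * L) = 2 * L ^ 2 := by ring
        rw [h2] at h1
        rw [stepA D _ φ φ1 hφ (x :: p) hp (by omega) (by omega),
          stepA D _ φ φ1 hφ p' hp' (by rw [← hu]; omega) (by rw [← hv]; omega), hu, hv]

/-- Step C: the same for lists of short elements of the fiber product. -/
theorem stepC (D : Data F G X L σ τ) {K : Type*} [Monoid K] (φ : List A × List B → K)
    (φ1 : φ ([], []) = 1)
    (hφ : ∀ u u' v v', F u = G v → F u' = G v' → (u ++ u').length ≤ 9 * L ^ 3 →
      (v ++ v').length ≤ 9 * L ^ 3 → φ (u, v) * φ (u', v') = φ (u ++ u', v ++ v'))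
    (p : List (List A × List B)) (hp : ∀ x ∈ p, F x.1 = G x.2 ∧ x.1.length ≤ 9 * L ^ 3 ∧
      x.2.length ≤ 9 * L ^ 3) : ∃ q : List (List A × List B), (∀ x ∈ q, x ∈ X) ∧ fu q = fu p ∧
      fv q = fv p ∧ (q.map φ).prod = (p.map φ).prod := by
  induction p with
  | nil => exact ⟨[], by simp, rfl, rfl, rfl⟩
  | cons x p ih =>
    obtain ⟨q, hq, h1, h2, h3⟩ := ih fun y hy => hp y (by simp [hy])
    obtain ⟨h4, h5, h6⟩ := hp x (by simp)
    obtain ⟨ε, hε, hε1, hε2⟩ := D.gen x.1 x.2 h4
    refine ⟨ε ++ q, ?_, by simp [hε1, h1], by simp [hε2, h2], ?_⟩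
    · intro y hy
      rcases List.mem_append.1 hy with hy | hy
      · exact hε y hy
      · exact hq y hy
    · rw [List.map_append, List.prod_append, List.map_cons, List.prod_cons, h3,
        stepA D _ φ φ1 hφ ε hε (by rw [hε1]; exact h5) (by rw [hε2]; exact h6), hε1, hε2]

/-- Two lists of short elements with the same product have the same value. -/
theorem stepD (D : Data F G X L σ τ) {K : Type*} [Monoid K] (φ : List A × List B → K)
    (φ1 : φ ([], []) = 1)
    (hφ : ∀ u u' v v', F u = G v → F u' = G v' → (u ++ u').length ≤ 9 * L ^ 3 →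
      (v ++ v').length ≤ 9 * L ^ 3 → φ (u, v) * φ (u', v') = φ (u ++ u', v ++ v'))
    (p p' : List (List A × List B)) (hp : ∀ x ∈ p, F x.1 = G x.2 ∧ x.1.length ≤ 9 * L ^ 3 ∧
      x.2.length ≤ 9 * L ^ 3) (hp' : ∀ x ∈ p', F x.1 = G x.2 ∧ x.1.length ≤ 9 * L ^ 3 ∧
      x.2.length ≤ 9 * L ^ 3) (hu : fu p = fu p') (hv : fv p = fv p') :
    (p.map φ).prod = (p'.map φ).prod := by
  obtain ⟨q, hq, h1, h2, h3⟩ := stepC D φ φ1 hφ p hp
  obtain ⟨q', hq', h1', h2', h3'⟩ := stepC D φ φ1 hφ p' hp'
  rw [← h3, ← h3']
  exact stepB D φ φ1 hφ _ q q' le_rfl hq hq' (by rw [h1, h1', hu]) (by rw [h2, h2', hv])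

end Main

/-! ### From free semigroups to lists -/

section Conv

variable {A B Q : Type*} [Semigroup Q]

/-- the word of an element of a free semigroup -/
def toL {A : Type*} (x : FreeSemigroup A) : List A := x.head :: x.tail

theorem toL_mul {A : Type*} (x y : FreeSemigroup A) : toL (x * y) = toL x ++ toL y := rfl

theorem toL_ne {A : Type*} (x : FreeSemigroup A) : toL x ≠ [] := List.cons_ne_nil _ _

theorem toL_inj {A : Type*} {x y : FreeSemigroup A} (h : toL x = toL y) : x = y := by
  obtain ⟨a, l⟩ := x
  obtain ⟨b, m⟩ := y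
  obtain ⟨rfl, rfl⟩ := List.cons.inj h
  rfl

/-- the homomorphism of monoids that extends `f` -/
def ext (f : FreeSemigroup A →ₙ* Q) : List A → WithOne Q
  | [] => 1
  | a :: l => ((f ⟨a, l⟩ : Q) : WithOne Q)

theorem ext_toL (f : FreeSemigroup A →ₙ* Q) (x : FreeSemigroup A) :
    ext f (toL x) = ((f x : Q) : WithOne Q) := rfl

theorem ext_append (f : FreeSemigroup A →ₙ* Q) (u v : List A) :
    ext f (u ++ v) = ext f u * ext f v := by
  cases u with
  | nil => simp [ext]
  | cons a l =>
    cases v with
    | nil => simp [ext]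
    | cons b m =>
      change (((f (⟨a, l⟩ * ⟨b, m⟩) : Q)) : WithOne Q) = _
      rw [map_mul, WithOne.coe_mul]
      rfl

theorem ext_eq_one (f : FreeSemigroup A →ₙ* Q) (u : List A) (h : ext f u = 1) : u = [] := by
  cases u with
  | nil => rfl
  | cons a l => exact absurd h WithOne.coe_ne_one

/-- a section of `g`, made into a homomorphism -/
theorem exists_section (f : FreeSemigroup A →ₙ* Q) (g : FreeSemigroup B →ₙ* Q)
    (hg : Function.Surjective g) : ∃ σ : List A → List B, (∀ a b, σ (a ++ b) = σ a ++ σ b) ∧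
      ∀ u, ext g (σ u) = ext f u := by
  choose w hw using fun a : A => hg (f (FreeSemigroup.of a))
  refine ⟨fun u => u.flatMap fun a => toL (w a), fun a b => List.flatMap_append, fun u => ?_⟩
  induction u with
  | nil => rfl
  | cons a l ih =>
    change ext g ((a :: l).flatMap fun a => toL (w a)) = _
    rw [List.flatMap_cons, ext_append, ext_toL, hw, show a :: l = [a] ++ l from rfl, ext_append]
    exact congrArg _ ih

/-- the pair of words of a pair -/
def toP (s : FreeSemigroup A × FreeSemigroup B) : List A × List B := (toL s.1, toL s.2)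

theorem toP_inj {s t : FreeSemigroup A × FreeSemigroup B} (h : toP s = toP t) : s = t := by
  have h1 := congrArg Prod.fst h
  have h2 := congrArg Prod.snd h
  exact Prod.ext (toL_inj h1) (toL_inj h2)

end Conv

/-! ### The result -/

theorem main {A B Q : Type*} [Finite A] [Finite B] [Semigroup Q] (f : FreeSemigroup A →ₙ* Q)
    (g : FreeSemigroup B →ₙ* Q) (hf : Function.Surjective f) (hg : Function.Surjective g)
    (hS : IsFinitelyGenerated (fiberProduct f g)) : IsFinitelyPresented (fiberProduct f g) := by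
  classical
  obtain ⟨X0, hX0, hcl⟩ := hS
  obtain ⟨X, hXdef⟩ : ∃ X : Set (List A × List B),
    X = (fun s : fiberProduct f g => toP s.1) '' X0 := ⟨_, rfl⟩
  obtain ⟨L, hL⟩ := ((hX0.image fun s : fiberProduct f g =>
    (toP s.1).1.length + (toP s.1).2.length)).bddAbove
  have hXL : ∀ x ∈ X, x.1.length + x.2.length ≤ L := by
    rw [hXdef]
    rintro _ ⟨s, hs, rfl⟩
    exact hL ⟨s, hs, rfl⟩
  obtain ⟨σ, hσ, hσ'⟩ := exists_section f g hg
  obtain ⟨τ, hτ, hτ'⟩ := exists_section g f hf
  have hgenS : ∀ s : fiberProduct f g, ∃ p : List (List A × List B), (∀ x ∈ p, x ∈ X) ∧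
      fu p = (toP s.1).1 ∧ fv p = (toP s.1).2 := by
    intro s
    have hs : s ∈ Subsemigroup.closure X0 := by rw [hcl]; trivial
    induction hs using Subsemigroup.closure_induction with
    | mem s hs =>
      refine ⟨[toP s.1], ?_, by simp, by simp⟩
      intro x hx
      rw [List.mem_singleton.1 hx, hXdef]
      exact ⟨s, hs, rfl⟩
    | mul s t _ _ ih1 ih2 =>
      obtain ⟨p, hp, h1, h2⟩ := ih1
      obtain ⟨q, hq, h3, h4⟩ := ih2
      refine ⟨p ++ q, ?_, by rw [fu_append, h1, h3]; rfl, by rw [fv_append, h2, h4]; rfl⟩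
      intro y hy
      rcases List.mem_append.1 hy with hy | hy
      · exact hp y hy
      · exact hq y hy
  -- every pair of words with the same image is empty or comes from the fiber product
  have hT : ∀ u v, ext f u = ext g v → (u = [] ∧ v = []) ∨
      ∃ s : fiberProduct f g, toP s.1 = (u, v) := by
    intro u v h
    cases u with
    | nil => exact Or.inl ⟨rfl, ext_eq_one g v h.symm⟩
    | cons a l =>
      cases v with
      | nil => exact absurd (ext_eq_one f _ h) (List.cons_ne_nil _ _)
      | cons b m =>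
        have h' : f ⟨a, l⟩ = g ⟨b, m⟩ := WithOne.coe_injective h
        exact Or.inr ⟨⟨(⟨a, l⟩, ⟨b, m⟩), h'⟩, rfl⟩
  have hTmem : ∀ s : fiberProduct f g, ext f (toP s.1).1 = ext g (toP s.1).2 := by
    intro s
    change ((f s.1.1 : Q) : WithOne Q) = ((g s.1.2 : Q) : WithOne Q)
    rw [show f s.1.1 = g s.1.2 from s.2]
  have D : Data (ext f) (ext g) X L σ τ :=
    { hF := ext_append f
      hG := ext_append g
      hF1 := rfl
      hG1 := rfl
      mem := by
        rw [hXdef]
        rintro _ ⟨s, -, rfl⟩
        exact hTmem s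
      p1 := by
        rw [hXdef]
        rintro _ ⟨s, -, rfl⟩
        exact List.length_pos_iff.2 (toL_ne _)
      p2 := by
        rw [hXdef]
        rintro _ ⟨s, -, rfl⟩
        exact List.length_pos_iff.2 (toL_ne _)
      l1 := fun x hx => by have := hXL x hx; omega
      l2 := fun x hx => by have := hXL x hx; omega
      gen := by
        intro u v h
        rcases hT u v h with ⟨rfl, rfl⟩ | ⟨s, hs⟩
        · exact ⟨[], by simp, rfl, rfl⟩
        · obtain ⟨p, hp, h1, h2⟩ := hgenS s
          rw [hs] at h1 h2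
          exact ⟨p, hp, h1, h2⟩
      hσ := hσ
      hτ := hτ
      Gσ := hσ'
      Fτ := hτ' }
  -- the short elements
  obtain ⟨N, hN⟩ : ∃ N, N = 9 * L ^ 3 := ⟨_, rfl⟩
  have hYfin : {s : fiberProduct f g | (toP s.1).1.length ≤ N ∧ (toP s.1).2.length ≤ N}.Finite := by
    have h1 : ({l : List A | l.length ≤ N} ×ˢ {l : List B | l.length ≤ N}).Finite :=
      (List.finite_length_le A N).prod (List.finite_length_le B N)
    refine (h1.preimage (f := fun s : fiberProduct f g => toP s.1) ?_).subset ?_
    · intro s _ t _ h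
      exact Subtype.ext (toP_inj h)
    · intro s hs
      exact hs
  have := hYfin.to_subtype
  obtain ⟨n, ⟨e⟩⟩ := Finite.exists_equiv_fin
    {s : fiberProduct f g | (toP s.1).1.length ≤ N ∧ (toP s.1).2.length ≤ N}
  obtain ⟨y, hy⟩ : ∃ y : Fin n → fiberProduct f g, ∀ i, y i = (e.symm i).1 := ⟨_, fun i => rfl⟩
  have hyinj : ∀ i j, y i = y j → i = j := by
    intro i j h
    rw [hy, hy] at h
    exact e.symm.injective (Subtype.ext h)
  have hysmall : ∀ i, (toP (y i).1).1.length ≤ N ∧ (toP (y i).1).2.length ≤ N := by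
    intro i
    rw [hy]
    exact (e.symm i).2
  have hysurj : ∀ s : fiberProduct f g, (toP s.1).1.length ≤ N → (toP s.1).2.length ≤ N →
      ∃ i, y i = s := by
    intro s h1 h2
    refine ⟨e ⟨s, h1, h2⟩, ?_⟩
    rw [hy, Equiv.symm_apply_apply]
  clear hy
  -- the relations
  obtain ⟨R, hR⟩ : ∃ R : Set (FreeSemigroup (Fin n) × FreeSemigroup (Fin n)),
      R = {r | ∃ i j k : Fin n, y i * y j = y k ∧
        r = (FreeSemigroup.of i * FreeSemigroup.of j, FreeSemigroup.of k)} := ⟨_, rfl⟩
  have hRfin : R.Finite := by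
    refine (Set.finite_range fun t : Fin n × Fin n × Fin n =>
      (FreeSemigroup.of t.1 * FreeSemigroup.of t.2.1, FreeSemigroup.of t.2.2)).subset ?_
    rw [hR]
    rintro _ ⟨i, j, k, -, rfl⟩
    exact ⟨(i, j, k), rfl⟩
  obtain ⟨π, hπ⟩ : ∃ π : FreeSemigroup (Fin n) →ₙ* fiberProduct f g,
    ∀ i, π (FreeSemigroup.of i) = y i := ⟨FreeSemigroup.lift y, fun i => rfl⟩
  obtain ⟨c, hc⟩ : ∃ c : Con (FreeSemigroup (Fin n)), c = conGen fun a b => (a, b) ∈ R := ⟨_, rfl⟩
  -- the multiplicative map on short elements
  obtain ⟨φ, hφdef⟩ : ∃ φ : List A × List B → WithOne c.Quotient, ∀ x, φ x =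
      if h : ∃ i, toP (y i).1 = x then
        (((FreeSemigroup.of h.choose : FreeSemigroup (Fin n)) : c.Quotient) : WithOne c.Quotient)
      else 1 := ⟨_, fun x => rfl⟩
  have hφy : ∀ i, φ (toP (y i).1) =
      (((FreeSemigroup.of i : FreeSemigroup (Fin n)) : c.Quotient) : WithOne c.Quotient) := by
    intro i
    have h : ∃ j, toP (y j).1 = toP (y i).1 := ⟨i, rfl⟩
    rw [hφdef, dif_pos h, hyinj _ _ (Subtype.ext (toP_inj h.choose_spec))]
  have hφ1 : φ ([], []) = 1 := by
    rw [hφdef, dif_neg]
    rintro ⟨i, hi⟩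
    exact toL_ne _ (congrArg Prod.fst hi)
  have hsmall : ∀ u v, ext f u = ext g v → u.length ≤ N → v.length ≤ N →
      (u = [] ∧ v = []) ∨ ∃ i, toP (y i).1 = (u, v) := by
    intro u v h h1 h2
    rcases hT u v h with h3 | ⟨s, hs⟩
    · exact Or.inl h3
    · obtain ⟨i, rfl⟩ := hysurj s (by rw [hs]; exact h1) (by rw [hs]; exact h2)
      exact Or.inr ⟨i, hs⟩
  have hφmul : ∀ u u' v v', ext f u = ext g v → ext f u' = ext g v' →
      (u ++ u').length ≤ 9 * L ^ 3 → (v ++ v').length ≤ 9 * L ^ 3 →
      φ (u, v) * φ (u', v') = φ (u ++ u', v ++ v') := by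
    intro u u' v v' h1 h2 h3 h4
    rw [← hN] at h3 h4
    have h5 := h3
    have h6 := h4
    rw [List.length_append] at h5 h6
    rcases hsmall u v h1 (by omega) (by omega) with ⟨rfl, rfl⟩ | ⟨i, hi⟩
    · rw [hφ1, one_mul]; rfl
    rcases hsmall u' v' h2 (by omega) (by omega) with ⟨rfl, rfl⟩ | ⟨j, hj⟩
    · rw [hφ1, mul_one, List.append_nil, List.append_nil]
    obtain ⟨k, hk⟩ := hysurj (y i * y j) (by
        change (toL (y i).1.1 ++ toL (y j).1.1).length ≤ N
        rw [show toL (y i).1.1 = u from congrArg Prod.fst hi,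
          show toL (y j).1.1 = u' from congrArg Prod.fst hj]
        exact h3) (by
        change (toL (y i).1.2 ++ toL (y j).1.2).length ≤ N
        rw [show toL (y i).1.2 = v from congrArg Prod.snd hi,
          show toL (y j).1.2 = v' from congrArg Prod.snd hj]
        exact h4)
    have h7 : toP (y k).1 = (u ++ u', v ++ v') := by
      rw [hk]
      change (toL (y i).1.1 ++ toL (y j).1.1, toL (y i).1.2 ++ toL (y j).1.2) = _
      rw [show toL (y i).1.1 = u from congrArg Prod.fst hi,
        show toL (y j).1.1 = u' from congrArg Prod.fst hj,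
        show toL (y i).1.2 = v from congrArg Prod.snd hi,
        show toL (y j).1.2 = v' from congrArg Prod.snd hj]
    rw [← hi, ← hj, ← h7, hφy, hφy, hφy, ← WithOne.coe_mul]
    refine congrArg _ ?_
    rw [← Con.coe_mul]
    refine (Con.eq _).2 ?_
    rw [hc]
    refine ConGen.Rel.of _ _ ?_
    rw [hR]
    exact ⟨i, j, k, hk.symm, rfl⟩
  -- words over the short elements
  obtain ⟨P, hP⟩ : ∃ P : FreeSemigroup (Fin n) → List (List A × List B),
    ∀ w, P w = (toL w).map fun i => toP (y i).1 := ⟨_, fun w => rfl⟩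
  have hPprop : ∀ w, fu (P w) = (toP (π w).1).1 ∧ fv (P w) = (toP (π w).1).2 ∧
      ((P w).map φ).prod = ((w : c.Quotient) : WithOne c.Quotient) := by
    intro w
    induction w using FreeSemigroup.recOnMul with
    | ih1 i =>
      rw [hP, hπ]
      refine ⟨?_, ?_, ?_⟩
      · change fu [toP (y i).1] = _
        simp
      · change fv [toP (y i).1] = _
        simp
      · change ([toP (y i).1].map φ).prod = _
        rw [List.map_singleton, List.prod_singleton, hφy]
    | ih2 i w h1 h2 =>
      have h3 : P (FreeSemigroup.of i * w) = P (FreeSemigroup.of i) ++ P w := by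
        rw [hP, hP, hP, toL_mul, List.map_append]
      rw [h3, map_mul, fu_append, fv_append, h1.1, h1.2.1, h2.1, h2.2.1, List.map_append,
        List.prod_append, h1.2.2, h2.2.2]
      exact ⟨rfl, rfl, rfl⟩
  have hPmem : ∀ w, ∀ x ∈ P w, ext f x.1 = ext g x.2 ∧ x.1.length ≤ 9 * L ^ 3 ∧
      x.2.length ≤ 9 * L ^ 3 := by
    intro w x hx
    rw [hP] at hx
    obtain ⟨i, -, rfl⟩ := List.mem_map.1 hx
    rw [← hN]
    exact ⟨hTmem _, (hysmall i).1, (hysmall i).2⟩
  -- the congruence is the kernel of `π`
  have hker1 : ∀ w w', c w w' → π w = π w' := by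
    intro w w' h
    rw [hc] at h
    have h1 : (conGen fun a b => (a, b) ∈ R) ≤ Con.ker π := by
      rw [Con.conGen_le]
      intro a b hab
      rw [hR] at hab
      obtain ⟨i, j, k, hijk, hab⟩ := hab
      obtain ⟨rfl, rfl⟩ := Prod.mk.inj hab
      rw [Con.ker_rel, map_mul, hπ, hπ, hπ, hijk]
    exact (Con.ker_rel π).1 (h1 h)
  have hker2 : ∀ w w', π w = π w' → c w w' := by
    intro w w' h
    obtain ⟨h1, h2, h3⟩ := hPprop w
    obtain ⟨h1', h2', h3'⟩ := hPprop w'
    have h4 := stepD D φ hφ1 hφmul (P w) (P w') (hPmem w) (hPmem w') (by rw [h1, h1', h])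
      (by rw [h2, h2', h])
    rw [h3, h3'] at h4
    exact (Con.eq _).1 (WithOne.coe_injective h4)
  have hsurj : Function.Surjective π := by
    intro s
    have hs : s ∈ Subsemigroup.closure X0 := by rw [hcl]; trivial
    induction hs using Subsemigroup.closure_induction with
    | mem s hs =>
      have h1 := hXL (toP s.1) (by rw [hXdef]; exact ⟨s, hs, rfl⟩)
      have h2 : 1 ≤ (toP s.1).1.length := List.length_pos_iff.2 (toL_ne _)
      have h3 : 1 ≤ L := by omega
      have hL2 : L ≤ L ^ 2 := by nlinarith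
      have hL3 : L ^ 2 ≤ L ^ 3 := by nlinarith
      obtain ⟨i, hi⟩ := hysurj s (by omega) (by omega)
      exact ⟨FreeSemigroup.of i, by rw [hπ, hi]⟩
    | mul s t _ _ ih1 ih2 =>
      obtain ⟨w, rfl⟩ := ih1
      obtain ⟨w', rfl⟩ := ih2
      exact ⟨w * w', map_mul _ _ _⟩
  refine ⟨n, R, hRfin, ?_⟩
  rw [← hc]
  refine ⟨MulEquiv.ofBijective ({ toFun := Quotient.lift π hker1
                                  map_mul' := ?_ } : c.Quotient →ₙ* fiberProduct f g) ?_⟩
  · rintro ⟨a⟩ ⟨b⟩
    exact map_mul π a b
  · constructor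
    · rintro ⟨a⟩ ⟨b⟩ h
      exact Quotient.sound (hker2 a b h)
    · intro s
      obtain ⟨w, hw⟩ := hsurj s
      exact ⟨Quotient.mk _ w, hw⟩

/-- Every finitely generated fiber product of two free semigroups over finite nonempty alphabets is
finitely presented. -/
theorem result : ∀ (A B : Type*) [Finite A] [Nonempty A] [Finite B] [Nonempty B] (Q : Type*)
    [Semigroup Q] (f : FreeSemigroup A →ₙ* Q) (g : FreeSemigroup B →ₙ* Q),
    Function.Surjective f → Function.Surjective g → IsFinitelyGenerated (fiberProduct f g) →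
    IsFinitelyPresented (fiberProduct f g) :=
  fun _ _ _ _ _ _ _ _ f g hf hg hS => main f g hf hg hS

end Pool.Agent.Results.MP_c47b4a_al.FiberProductsFP
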